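import Pool.Agent.MP_ea4e37_lc.Mg.H12_Work

/-! The work function algorithm with one server more than the adversary. -/

set_option autoImplicit false

namespace Pool.Agent.MP_ea4e37_lc.W47

open Finset H12

variable {M : Type} [MetricSpace M]

omit [MetricSpace M] in
theorem pen_plain {m : ℕ} (r : ℕ → M) (C : ℕ → Fin m → M) (n : ℕ) :
    pen (Input.plain r) C n = 0 :=
  Finset.sum_eq_zero fun _ _ => ite_self _

theorem wf_congr {m : ℕ} {r r' : ℕ → M} (A : Fin m → M) {n : ℕ} (h : ∀ t < n, r t = r' t)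
    (X : Fin m → M) : wf (Input.plain r) A n X = wf (Input.plain r') A n X := by
  have hF : ∀ C, Feasible (Input.plain r) A C n ↔ Feasible (Input.plain r') A C n := fun C =>
    and_congr Iff.rfl (forall_congr' fun t => forall_congr' fun ht => by
      change (True → r t ∈ _) ↔ (True → r' t ∈ _)
      rw [h t ht])
  simp only [wf, pen_plain, hF]

/-- An adversary that looks at the current configuration has a run of the algorithm. -/
theorem exists_run {m : ℕ} (hm : 0 < m) (A : Fin m → M) (req : (Fin m → M) → M) :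
    ∃ S : ℕ → Fin m → M, ∀ n, IsWFA (Input.plain fun t => req (S t)) A S n := by
  classical
  have : Nonempty (Fin m) := ⟨⟨0, hm⟩⟩
  have hmin : ∀ (t : ℕ) (r : ℕ → M) (X : Fin m → M) (x : M), ∃ j : Fin m, ∀ i,
      wf (Input.plain r) A (t + 1) (Function.update X j x) + dist (X j) x ≤
        wf (Input.plain r) A (t + 1) (Function.update X i x) + dist (X i) x :=
    fun t r X x => Finite.exists_min fun i =>
      wf (Input.plain r) A (t + 1) (Function.update X i x) + dist (X i) x
  choose J hJ using hmin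
  let σ : ℕ → (ℕ → M) × (Fin m → M) := fun t => Nat.rec (fun _ => req A, A)
    (fun t p => (Function.update p.1 t (req p.2),
      Function.update p.2 (J t (Function.update p.1 t (req p.2)) p.2 (req p.2)) (req p.2))) t
  have e1 : ∀ t, (σ (t + 1)).1 = Function.update (σ t).1 t (req (σ t).2) := fun _ => rfl
  have e2 : ∀ t, (σ (t + 1)).2 = Function.update (σ t).2
      (J t (σ (t + 1)).1 (σ t).2 (req (σ t).2)) (req (σ t).2) := fun _ => rfl
  have e3 : ∀ t, ∀ s < t, (σ t).1 s = req (σ s).2 := by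
    intro t
    induction t with
    | zero => intro s hs; omega
    | succ t ih =>
      intro s hs
      rw [e1]
      rcases Nat.lt_succ_iff_lt_or_eq.1 hs with h | rfl
      · rw [Function.update_of_ne h.ne, ih s h]
      · rw [Function.update_self]
  refine ⟨fun t => (σ t).2, fun n => ⟨rfl, fun t _ => ?_⟩⟩
  have e4 := fun X => wf_congr (r := (σ (t + 1)).1) (r' := fun s => req (σ s).2) A (e3 (t + 1)) X
  refine ⟨_, fun j => ?_, fun h => absurd trivial h,
    Or.inl ⟨J t (σ (t + 1)).1 (σ t).2 (req (σ t).2), e2 t, rfl⟩⟩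
  have := hJ t (σ (t + 1)).1 (σ t).2 (req (σ t).2) j
  rw [e4, e4] at this
  exact this

theorem wf_cov {m : ℕ} (hm : 0 < m) (r : ℕ → M) (A Y : Fin m → M) {n₀ n : ℕ} (hn : n₀ ≤ n)
    (h : ∀ t, n₀ ≤ t → t < n → r t ∈ Set.range Y) :
    wf (Input.plain r) A n Y ≤ wf (Input.plain r) A n₀ Y := by
  induction n, hn using Nat.le_induction with
  | base => exact le_rfl
  | succ n hn ih =>
    have h0 : (Input.plain r).r n ∈ Set.range Y := h n hn (by omega)
    have h1 := wf_succ_le (ρ := Input.plain r) (A := A) hm n Y Y fun _ => h0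
    rw [if_pos h0] at h1
    simp only [dist_self, sum_const_zero, add_zero] at h1
    exact h1.trans (ih fun t h1 h2 => h t h1 (by omega))

theorem wf_zero {m : ℕ} (r : ℕ → M) (A Y : Fin m → M) :
    wf (Input.plain r) A 0 Y ≤ ∑ i, dist (A i) (Y i) := by
  have := wf_le (ρ := Input.plain r) (A := A) (C := fun _ => A) (n := 0)
    ⟨rfl, fun t ht => absurd ht (by omega)⟩ Y 1
  simpa [mov, pen_plain] using this

theorem wf_low {m : ℕ} (hm : 0 < m) (r : ℕ → M) (a : M) (n : ℕ) (X : Fin m → M) :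
    ∑ i, dist a (X i) ≤ wf (Input.plain r) (fun _ => a) n X := by
  refine le_wf hm fun C π hC => ?_
  have h3 : ∑ i, dist a (C n i) ≤ mov C n := by
    rw [mov, Finset.sum_comm]
    refine Finset.sum_le_sum fun i _ => ?_
    have h0 : C 0 i = a := by rw [hC.1]
    have := dist_le_range_sum_dist (fun t => C t i) n
    rwa [h0] at this
  have h4 : ∑ i, dist a (X (π i)) ≤ ∑ i, dist a (C n i) + ∑ i, dist (C n i) (X (π i)) := by
    rw [← Finset.sum_add_distrib]
    exact Finset.sum_le_sum fun i _ => dist_triangle _ _ _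
  rw [Equiv.sum_comp π fun i => dist a (X i)] at h4
  rw [pen_plain]
  linarith

theorem opt_le_wf {m : ℕ} (hm : 0 < m) (ρ : Input M) (A : Fin m → M) (n : ℕ) (X : Fin m → M) :
    opt ρ A n ≤ wf ρ A n X := le_wf hm fun _ _ hC =>
  (opt_le hC).trans (le_add_of_nonneg_right (Finset.sum_nonneg fun _ _ => dist_nonneg))

open Classical in
theorem sum_away {m : ℕ} (a : M) (L : ℝ) (X : Fin m → M) (h : ∀ i, X i ≠ a → dist a (X i) = L) :
    ∑ i, dist a (X i) = #{i | X i ≠ a} * L := by
  rw [← nsmul_eq_mul, ← Finset.sum_const, Finset.sum_filter]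
  refine Finset.sum_congr rfl fun i _ => ?_
  split_ifs with hi
  · exact h i hi
  · rw [not_not.1 hi, dist_self]

/-- The offline schedule: `j` servers placed at once, then one move per block of `j` requests. -/
theorem off {m h j : ℕ} (hm : 0 < m) (hj : j ≤ h) (a : M) (b : ℕ → M) (L : ℝ)
    (hbb : ∀ p ≤ h, ∀ q ≤ h, p ≠ q → dist (b p) (b q) = 1) (hab : ∀ q ≤ h, dist a (b q) = L)
    (T : Finset (Fin m)) (hT : #T = j) (r : ℕ → M) (ι : ℕ → ℕ) (τ : ℕ) (μ : ℕ) :
    ∀ n, τ ≤ n → n ≤ τ + μ * j → (∀ t < n, r t = b (ι t)) → (∀ t < τ, ι t < j) →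
      (∀ t < n, ι t ≤ j) →
      ∃ Y : Fin m → M, (∀ i ∉ T, Y i = a) ∧ (∀ i ∈ T, ∃ q ≤ j, Y i = b q) ∧
        (∃ q ≤ j, ∀ p ≤ j, p ≠ q → ∃ i ∈ T, Y i = b p) ∧
        wf (Input.plain r) (fun _ => a) n Y ≤ j * L + μ := by
  classical
  induction μ with
  | zero =>
    intro n h1 h2 hr h3 _
    obtain rfl : n = τ := by omega
    let e := T.equivFinOfCardEq hT
    let Y : Fin m → M := fun i => if hi : i ∈ T then b (e ⟨i, hi⟩) else a
    have y1 : ∀ i (hi : i ∈ T), Y i = b (e ⟨i, hi⟩) := fun i hi => dif_pos hi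
    have y2 : ∀ i ∉ T, Y i = a := fun i hi => dif_neg hi
    have y3 : ∀ p < j, ∃ i ∈ T, Y i = b p := fun p hp =>
      ⟨e.symm ⟨p, hp⟩, (e.symm ⟨p, hp⟩).2, by rw [y1 _ (e.symm ⟨p, hp⟩).2]; simp⟩
    refine ⟨Y, y2, fun i hi => ⟨_, (e ⟨i, hi⟩).2.le, y1 i hi⟩,
      ⟨j, le_rfl, fun p hp hq => y3 p (lt_of_le_of_ne hp hq)⟩, ?_⟩
    have h4 := wf_cov hm r (fun _ => a) Y (Nat.zero_le n) fun t _ ht => by
      obtain ⟨i, -, hi⟩ := y3 _ (h3 t ht)
      exact ⟨i, by rw [hi, hr t ht]⟩
    have h5 := wf_zero r (fun _ => a) Y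
    have h6 : ∑ i, dist a (Y i) = j * L := by
      rw [← hT, ← nsmul_eq_mul, ← Finset.sum_const]
      symm
      refine (Finset.sum_congr rfl fun i hi => ?_).trans
        (Finset.sum_subset (subset_univ T) fun i _ hi => by rw [y2 i hi, dist_self])
      rw [y1 i hi, hab _ ((e ⟨i, hi⟩).2.le.trans hj)]
    simp only [Nat.cast_zero, add_zero]
    linarith
  | succ μ ih =>
    intro n h1 h2 hr h3 h4
    by_cases hn : n ≤ τ + μ * j
    · obtain ⟨Y, y1, y2, y3, y4⟩ := ih n h1 hn hr h3 h4
      exact ⟨Y, y1, y2, y3, by push_cast; linarith⟩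
    have hn' : τ + μ * j ≤ n := by omega
    obtain ⟨Y, y1, y2, ⟨q, hq, y3⟩, y4⟩ := ih (τ + μ * j) (by omega) le_rfl
      (fun t ht => hr t (by omega)) h3 (fun t ht => h4 t (by omega))
    have hc : #((Ico (τ + μ * j) n).image ι) < #(range (j + 1)) := by
      have := card_image_le (s := Ico (τ + μ * j) n) (f := ι)
      rw [Nat.card_Ico] at this
      rw [card_range]
      rw [add_mul, one_mul] at h2
      omega
    obtain ⟨q', hq', hq''⟩ := exists_mem_notMem_of_card_lt_card hc
    have hq1 : q' ≤ j := by have := mem_range.1 hq'; omega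
    obtain ⟨Y', z1, z2, z3, z4⟩ : ∃ Y' : Fin m → M, (∀ i ∉ T, Y' i = a) ∧
        (∀ i ∈ T, ∃ q ≤ j, Y' i = b q) ∧ (∀ p ≤ j, p ≠ q' → ∃ i ∈ T, Y' i = b p) ∧
        ∑ i, dist (Y i) (Y' i) ≤ 1 := by
      by_cases hqq : q' = q
      · exact ⟨Y, y1, y2, hqq ▸ y3, by simp⟩
      obtain ⟨s, hs, hs'⟩ := y3 q' hq1 hqq
      refine ⟨Function.update Y s (b q), fun i hi => ?_, fun i hi => ?_, fun p hp hp' => ?_, ?_⟩
      · rw [Function.update_of_ne (show i ≠ s from fun h => hi (by rw [h]; exact hs)), y1 i hi]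
      · by_cases his : i = s
        · exact ⟨q, hq, by rw [his, Function.update_self]⟩
        · rw [Function.update_of_ne his]; exact y2 i hi
      · by_cases hpq : p = q
        · exact ⟨s, hs, by rw [Function.update_self, hpq]⟩
        · obtain ⟨i, hi, hi'⟩ := y3 p hp hpq
          refine ⟨i, hi, ?_⟩
          rw [Function.update_of_ne, hi']
          rintro rfl
          have := hbb p (hp.trans hj) q' (hq1.trans hj) hp'
          rw [← hi', ← hs', dist_self] at this
          norm_num at this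
      · have := sum_update_left Y s (b q)
        simp only [dist_comm (Function.update _ _ _ _)] at this
        rw [this, hs', hbb q (hq.trans hj) q' (hq1.trans hj) (Ne.symm hqq)]
    refine ⟨Y', z1, z2, ⟨q', hq1, z3⟩, ?_⟩
    have h5 := wf_cov hm r (fun _ => a) Y' hn' fun t ht ht' => by
      obtain ⟨i, -, hi⟩ := z3 (ι t) (h4 t ht')
        (fun h => hq'' (mem_image.2 ⟨t, mem_Ico.2 ⟨ht, ht'⟩, h⟩))
      exact ⟨i, by rw [hi, hr t ht']⟩
    have h6 := wf_lip (ρ := Input.plain r) (A := fun _ => a) hm (τ + μ * j) Y' Y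
    push_cast
    linarith

open Classical in
/-- The adversary: request the first uncovered point. -/
noncomputable def idx {m : ℕ} (h : ℕ) (b : ℕ → M) (X : Fin m → M) : ℕ :=
  if hx : ∃ q, q ≤ h ∧ b q ∉ Set.range X then Nat.find hx else 0

theorem upper {k h : ℕ} (hh : 0 < h) (e : Fin h ↪ Fin k) (A : Fin k → M) (r : ℕ → M)
    (S : ℕ → Fin k → M) (n : ℕ) (hS : IsWFA (Input.plain r) A S n) :
    mov S n + opt (Input.plain r) A n ≤
      (h + 1) * opt (Input.plain r) (A ∘ e) n + clique (A ∘ e) := by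
  have hk : 0 < k := (e ⟨0, hh⟩).pos
  have h1 := (run_le hk hS).1
  have h3 := ext_le_opt (ρ := Input.plain r) (A := A) hh e n S
  have h4 := min_le_left (clique (A ∘ e)) ((h - 1) * opt (Input.plain r) (A ∘ e) n)
  linarith

theorem lower {h : ℕ} (hh : 0 < h) (a : M) (b : ℕ → M) (L : ℝ) (μ : ℕ)
    (hL : 2 * L = μ + (h + 1) + 2)
    (hbb : ∀ p ≤ h, ∀ q ≤ h, p ≠ q → dist (b p) (b q) = 1) (hab : ∀ q ≤ h, dist a (b q) = L)
    (S : ℕ → Fin (h + 1) → M)
    (hS : ∀ n, IsWFA (Input.plain fun t => b (idx h b (S t))) (fun _ => a) S n) :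
    ∃ n, ((h : ℝ) + 1) ^ 2 * μ / 2 ≤ mov S n ∧
      opt (Input.plain fun t => b (idx h b (S t))) (fun _ : Fin h => a) n ≤
        h * L + (μ + ((h + 1) * (h + 3) + 2)) := by
  classical
  set ι : ℕ → ℕ := fun t => idx h b (S t) with hι
  set r : ℕ → M := fun t => b (ι t) with hr
  have hk : 0 < h + 1 := Nat.succ_pos h
  have hL1 : 1 ≤ L := by
    have : (0 : ℝ) ≤ μ + (h + 1) := by positivity
    linarith
  have hba : ∀ q ≤ h, b q ≠ a := fun q hq he => by
    have := hab q hq
    rw [he, dist_self] at this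
    linarith
  have hιh : ∀ t, ι t ≤ h := fun t => by
    simp only [hι, idx]
    split_ifs with hx
    · exact (Nat.find_spec hx).1
    · exact Nat.zero_le h
  have hstep : ∀ t, ∃ s, S (t + 1) = Function.update (S t) s (r t) ∧ ∀ s',
      wf (Input.plain r) (fun _ => a) (t + 1) (Function.update (S t) s (r t)) + dist (S t s) (r t) ≤
      wf (Input.plain r) (fun _ => a) (t + 1) (Function.update (S t) s' (r t)) +
        dist (S t s') (r t) := by
    intro t
    obtain ⟨m, h1, -, h3⟩ := (hS (t + 1)).2 t (by omega)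
    rcases h3 with ⟨s, h3, h4⟩ | ⟨h3, -⟩
    · exact ⟨s, h3, fun s' => h4 ▸ h1 s'⟩
    · exact absurd trivial h3
  have hinv : ∀ t i, S t i ≠ a → ∃ q ≤ h, S t i = b q := by
    intro t
    induction t with
    | zero => intro i hi; exact absurd (by rw [(hS 0).1]) hi
    | succ t ih =>
      intro i hi
      obtain ⟨s, hs, -⟩ := hstep t
      rw [hs] at hi ⊢
      by_cases his : i = s
      · exact ⟨ι t, hιh t, by rw [his, Function.update_self]⟩
      · rw [Function.update_of_ne his] at hi ⊢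
        exact ih i hi
  set J : ℕ → ℕ := fun t => #{i | S t i ≠ a} with hJ
  have hJ0 : J 0 = 0 := by simp [hJ, (hS 0).1]
  have hcov : ∀ t p, p ≤ h + 1 → (∀ q < p, b q ∈ Set.range (S t)) → p ≤ J t := by
    intro t p hp hq
    choose! f hf using hq
    rw [← card_range p]
    refine card_le_card_of_injOn f (fun q hq => ?_) fun q hq q' hq' he => ?_
    · have hq1 := mem_range.1 (mem_coe.1 hq)
      exact mem_coe.2 (mem_filter.2 ⟨mem_univ _, by rw [hf q hq1]; exact hba q (by omega)⟩)
    · have hq1 := mem_range.1 (mem_coe.1 hq)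
      have hq2 := mem_range.1 (mem_coe.1 hq')
      by_contra hne
      have := hbb q (by omega) q' (by omega) hne
      rw [← hf q hq1, ← hf q' hq2, he, dist_self] at this
      norm_num at this
  have hιJ : ∀ t, ι t ≤ J t := fun t => by
    refine hcov t _ ((hιh t).trans (by omega)) fun q hq => ?_
    have hqh := hq.le.trans (hιh t)
    simp only [hι, idx] at hq
    split_ifs at hq with hx
    · by_contra hc
      exact Nat.find_min hx hq ⟨hqh, hc⟩
    · omega
  have hact : ∀ t, (∃ q, q ≤ h ∧ b q ∉ Set.range (S t)) → r t ∉ Set.range (S t) := fun t hx => by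
    simp only [hr, hι, idx, dif_pos hx]
    exact (Nat.find_spec hx).2
  have hmov : ∀ t s, S (t + 1) = Function.update (S t) s (r t) →
      mov S (t + 1) = mov S t + dist (S t s) (r t) := fun t s hs => by
    have := sum_update_left (S t) s (r t)
    simp only [dist_comm (Function.update _ _ _ _)] at this
    rw [mov, Finset.sum_range_succ, hs, this, dist_comm]
    rfl
  have hstep2 : ∀ t, (∃ q, q ≤ h ∧ b q ∉ Set.range (S t)) →
      (J (t + 1) = J t ∧ mov S (t + 1) = mov S t + 1) ∨
      (J (t + 1) = J t + 1 ∧ mov S (t + 1) = mov S t + L ∧ ∀ s',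
        (J t + 2) * L ≤ wf (Input.plain r) (fun _ => a) (t + 1) (Function.update (S t) s' (r t)) +
          dist (S t s') (r t)) := by
    intro t hx
    obtain ⟨s, hs, hmin⟩ := hstep t
    have hra : r t ≠ a := hba _ (hιh t)
    by_cases hsa : S t s = a
    · have e1 : J (t + 1) = J t + 1 := by
        simp only [hJ]
        rw [← card_insert_of_notMem (a := s) (by simp [hsa])]
        congr 1
        ext i
        simp only [mem_filter, mem_univ, true_and, mem_insert, hs]
        by_cases his : i = s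
        · simp [his, hra]
        · simp [his]
      have e2 : dist (S t s) (r t) = L := by rw [hsa]; exact hab _ (hιh t)
      refine Or.inr ⟨e1, by rw [hmov t s hs, e2], fun s' => le_trans ?_ (hmin s')⟩
      have e3 := wf_low hk r a (t + 1) (S (t + 1))
      rw [sum_away a L (S (t + 1)) fun i hi => by
        obtain ⟨q, hq, he⟩ := hinv _ i hi
        rw [he, hab q hq]] at e3
      change (J (t + 1) : ℝ) * L ≤ _ at e3
      rw [e1, hs] at e3
      push_cast at e3
      linarith
    · obtain ⟨q, hq, he⟩ := hinv t s hsa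
      refine Or.inl ⟨?_, ?_⟩
      · simp only [hJ]
        congr 1
        ext i
        simp only [mem_filter, mem_univ, true_and, hs]
        by_cases his : i = s
        · simp [his, hra, hsa]
        · simp [his]
      · rw [hmov t s hs, he]
        congr 1
        refine hbb q hq _ (hιh t) fun hc => hact t hx ⟨s, ?_⟩
        rw [he, hc]
  have hup : ∀ n, mov S n ≤ ((h : ℝ) + 1) ^ 2 * L := fun n => by
    have h1 := upper hk (Function.Embedding.refl _) (fun _ => a) r S n (hS n)
    change _ ≤ ((h + 1 : ℕ) + 1) * opt _ (fun _ => a) n + clique (fun _ : Fin (h + 1) => a) at h1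
    have h2 : clique (fun _ : Fin (h + 1) => a) = 0 := by simp [clique]
    have h3 := opt_le_wf hk (Input.plain r) (fun _ => a) n fun i => b i
    have h4 := wf_cov hk r (fun _ => a) (fun i => b i) (Nat.zero_le n) fun t _ _ =>
      ⟨⟨ι t, Nat.lt_succ_of_le (hιh t)⟩, rfl⟩
    have h5 := wf_zero r (fun _ : Fin (h + 1) => a) fun i => b i
    have h6 : ∑ i : Fin (h + 1), dist a (b i) = (h + 1) * L := by
      rw [Finset.sum_congr rfl fun (i : Fin (h + 1)) _ => hab (i : ℕ) (Nat.le_of_lt_succ i.2)]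
      simp
    have h7 : opt (Input.plain r) (fun _ : Fin (h + 1) => a) n ≤ (h + 1) * L := by linarith
    have h8 := mul_le_mul_of_nonneg_left h7 (show (0 : ℝ) ≤ h + 1 by positivity)
    push_cast at h1
    nlinarith
  have hid : ∀ n, (∀ t < n, ∃ q, q ≤ h ∧ b q ∉ Set.range (S t)) →
      mov S n = J n * L + (n - J n) := by
    intro n
    induction n with
    | zero => intro _; simp [mov, hJ0]
    | succ n ih =>
      intro hn
      have := ih fun t ht => hn t (by omega)
      rcases hstep2 n (hn n (by omega)) with ⟨e1, e2⟩ | ⟨e1, e2, -⟩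
      · rw [e1, e2, this]; push_cast; ring
      · rw [e1, e2, this]; push_cast; ring
  have hterm : ∃ n, ¬ ∃ q, q ≤ h ∧ b q ∉ Set.range (S n) := by
    by_contra hc
    rw [not_exists] at hc
    obtain ⟨n, hn⟩ := exists_nat_gt (((h : ℝ) + 1) ^ 2 * L)
    have h1 := hid n fun t _ => not_not.1 (hc t)
    have h2 := hup n
    have h3 : (0 : ℝ) ≤ J n := by positivity
    nlinarith
  set n := Nat.find hterm with hn
  have hlt : ∀ t < n, ∃ q, q ≤ h ∧ b q ∉ Set.range (S t) := fun t ht =>
    not_not.1 (Nat.find_min hterm ht)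
  have hJn : J n = h + 1 := by
    refine le_antisymm ?_ (hcov n _ le_rfl fun q hq => ?_)
    · simpa using card_le_univ ({i | S n i ≠ a} : Finset (Fin (h + 1)))
    · by_contra hc
      exact Nat.find_spec hterm ⟨q, by omega, hc⟩
  have htime : ∀ j ≤ h + 1, ∀ t ≤ n, j ≤ J t → j * j * μ ≤ 2 * t + j * μ := by
    intro j
    induction j with
    | zero => intro _ t _ _; simp
    | succ j ih =>
      intro hj t ht hjt
      rcases Nat.eq_zero_or_pos j with rfl | hj0
      · simp
      have x1 : ∃ t, j + 1 ≤ J t := ⟨t, hjt⟩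
      have x0 : ∃ t, j ≤ J t := ⟨t, by omega⟩
      have t1 : Nat.find x1 ≤ t := Nat.find_min' x1 hjt
      have t2 := Nat.find_spec x1
      obtain ⟨s, hs⟩ : ∃ s, Nat.find x1 = s + 1 := by
        rcases Nat.eq_zero_or_pos (Nat.find x1) with h0 | h0
        · rw [h0, hJ0] at t2; omega
        · exact ⟨Nat.find x1 - 1, by omega⟩
      have t3 : ∀ u < s + 1, J u ≤ j := fun u hu => by
        have := Nat.find_min x1 (hs ▸ hu)
        omega
      rw [hs] at t1 t2
      have t4 := t3 s (by omega)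
      rcases hstep2 s (hlt s (by omega)) with ⟨e1, -⟩ | ⟨e1, -, e3⟩
      · omega
      have t5 : J s = j := by omega
      have t6 : Nat.find x0 ≤ s := Nat.find_min' x0 t5.ge
      have t7 := ih (by omega) (Nat.find x0) (by omega) (Nat.find_spec x0)
      have t8 : Nat.find x0 + μ * j ≤ t := by
        by_contra hc
        obtain ⟨Y, y1, y2, -, y4⟩ := off hk (show j ≤ h by omega) a b L hbb hab
          {i | S s i ≠ a} t5 r ι (Nat.find x0) μ (s + 1) (by omega) (by omega) (fun _ _ => rfl)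
          (fun u hu => by
            have := Nat.find_min x0 hu
            have := hιJ u
            omega) (fun u hu => (hιJ u).trans (t3 u hu))
        obtain ⟨s', hs'⟩ : ({i | S s i ≠ a} : Finset (Fin (h + 1))).Nonempty :=
          card_pos.1 (by change 0 < J s; omega)
        have hle : ∀ p ≤ h, ∀ q ≤ h, dist (b p) (b q) ≤ 1 := fun p hp q hq => by
          by_cases hpq : p = q
          · rw [hpq, dist_self]; norm_num
          · exact (hbb p hp q hq hpq).le
        have u1 : dist (S s s') (r s) ≤ 1 := by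
          obtain ⟨q, hq, he⟩ := hinv s s' (mem_filter.1 hs').2
          rw [he]
          exact hle q hq _ (hιh s)
        have u2 : ∑ i, dist (Y i) (Function.update (S s) s' (r s) i) ≤ ∑ _i : Fin (h + 1), (1 : ℝ) := by
          refine Finset.sum_le_sum fun i _ => ?_
          by_cases hi : i ∈ ({i | S s i ≠ a} : Finset (Fin (h + 1)))
          · obtain ⟨q, hq, he⟩ := y2 i hi
            rw [he]
            by_cases his : i = s'
            · rw [his, Function.update_self]
              exact hle q (by omega) _ (hιh s)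
            · obtain ⟨q', hq', he'⟩ := hinv s i (mem_filter.1 hi).2
              rw [Function.update_of_ne his, he']
              exact hle q (by omega) q' hq'
          · rw [y1 i hi, Function.update_of_ne (show i ≠ s' from fun h => hi (by rw [h]; exact hs'))]
            have : S s i = a := by simpa using hi
            rw [this, dist_self]; norm_num
        have u3 := wf_lip (ρ := Input.plain r) (A := fun _ => a) hk (s + 1)
          (Function.update (S s) s' (r s)) Y
        have u4 := e3 s'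
        rw [t5] at u4
        simp only [sum_const, card_univ, Fintype.card_fin, nsmul_eq_mul, mul_one] at u2
        push_cast at u2
        nlinarith
      nlinarith
  have h1 := hid n hlt
  have h2 := hup n
  have h3 := htime (h + 1) le_rfl n le_rfl hJn.ge
  have x0 : ∃ t, h ≤ J t := ⟨n, by omega⟩
  have h4 : Nat.find x0 ≤ n := Nat.find_min' x0 (by omega)
  have h5 := htime h (by omega) _ h4 (Nat.find_spec x0)
  rw [hJn] at h1
  push_cast at h1
  have hh' : (1 : ℝ) ≤ h := by exact_mod_cast hh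
  have h3' : ((h : ℝ) + 1) * (h + 1) * μ ≤ 2 * n + (h + 1) * μ := by exact_mod_cast h3
  have h5' : (h : ℝ) * h * μ ≤ 2 * (Nat.find x0 : ℕ) + h * μ := by exact_mod_cast h5
  have hL' : L = (μ + (h + 1) + 2) / 2 := by linarith
  refine ⟨n, ?_, ?_⟩
  · rw [h1, hL']
    nlinarith
  · have h6 : n ≤ Nat.find x0 + (μ + ((h + 1) * (h + 3) + 2)) * h := by
      have : (n : ℝ) ≤ (Nat.find x0 : ℕ) + (μ + ((h + 1) * (h + 3) + 2)) * h := by
        rw [h1, hL'] at h2
        nlinarith [mul_pos (mul_pos (show (0 : ℝ) < h by linarith) (show (0 : ℝ) < h + 1 by linarith))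
          (show (0 : ℝ) < h + 3 by linarith)]
      exact_mod_cast this
    obtain ⟨Y, -, -, -, y4⟩ := off hh le_rfl a b L hbb hab (univ : Finset (Fin h)) (by simp) r ι
      (Nat.find x0) (μ + ((h + 1) * (h + 3) + 2)) n h4 h6 (fun _ _ => rfl)
      (fun u hu => by
        have := Nat.find_min x0 hu
        have := hιJ u
        omega) (fun u _ => hιh u)
    have h7 := opt_le_wf hh (Input.plain r) (fun _ : Fin h => a) n Y
    push_cast at y4
    linarith

/-- The points of the example in `ℝ × ℝ^(h+1)` with the maximum metric. -/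
def pt (h : ℕ) (L : ℝ) (q : ℕ) : ℝ × (Fin (h + 1) → ℝ) := (L, fun i => if (i : ℕ) = q then 1 else 0)

theorem pt_pt (h : ℕ) (L : ℝ) : ∀ p ≤ h, ∀ q ≤ h, p ≠ q → dist (pt h L p) (pt h L q) = 1 := by
  intro p hp q _ hpq
  have h1 : dist (pt h L p).2 (pt h L q).2 = 1 := by
    refine le_antisymm ((dist_pi_le_iff zero_le_one).2 fun i => ?_) ?_
    · simp only [pt]
      split_ifs <;> simp [Real.dist_eq]
    · have := dist_le_pi_dist (pt h L p).2 (pt h L q).2 ⟨p, Nat.lt_succ_of_le hp⟩
      simpa [pt, hpq, Real.dist_eq] using this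
  rw [Prod.dist_eq, h1]
  simp [pt]

theorem zero_pt (h : ℕ) (L : ℝ) (hL : 1 ≤ L) : ∀ q ≤ h, dist 0 (pt h L q) = L := by
  intro q _
  have h1 : dist (0 : ℝ × (Fin (h + 1) → ℝ)).2 (pt h L q).2 ≤ 1 := by
    refine (dist_pi_le_iff zero_le_one).2 fun i => ?_
    simp only [pt]
    split_ifs <;> simp
  have h2 : dist (0 : ℝ × (Fin (h + 1) → ℝ)).1 (pt h L q).1 = L := by
    simp only [pt, Prod.fst_zero, dist_zero_left, Real.norm_eq_abs]
    exact abs_of_nonneg (by linarith)
  rw [Prod.dist_eq, h2]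
  exact max_eq_left (h1.trans hL)

theorem arith (h : ℕ) (c B : ℝ) (hc : c < ((h : ℝ) + 1) ^ 2 / (h + 2)) :
    ∃ (μ : ℕ) (L : ℝ), 2 * L = μ + (h + 1) + 2 ∧ ∀ o m : ℝ, 0 ≤ o →
      ((h : ℝ) + 1) ^ 2 * μ / 2 ≤ m → o ≤ h * L + (μ + ((h + 1) * (h + 3) + 2)) → c * o + B < m := by
  obtain ⟨c', h0, h1, h9⟩ : ∃ c' : ℝ, 0 ≤ c' ∧ c' < ((h : ℝ) + 1) ^ 2 / (h + 2) ∧ c ≤ c' :=
    ⟨max c 0, le_max_right _ _, max_lt hc (by positivity), le_max_left _ _⟩
  rw [lt_div_iff₀ (by positivity)] at h1
  obtain ⟨μ, hμ⟩ := exists_nat_gt (2 * (c' * (h * (h + 3) / 2 + ((h + 1) * (h + 3) + 2)) + B) /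
    (((h : ℝ) + 1) ^ 2 - c' * (h + 2)))
  rw [div_lt_iff₀ (by linarith)] at hμ
  refine ⟨μ, (μ + (h + 1) + 2) / 2, by ring, fun o m h4 h2 h3 => ?_⟩
  have h5 := mul_le_mul_of_nonneg_right h9 h4
  have h6 := mul_le_mul_of_nonneg_left h3 h0
  linarith

theorem tight_gen {h : ℕ} (hh : 0 < h) (c B : ℝ) (hc : c < ((h : ℝ) + 1) ^ 2 / (h + 2)) (a : M)
    (b : ℝ → ℕ → M) (hbb : ∀ L, ∀ p ≤ h, ∀ q ≤ h, p ≠ q → dist (b L p) (b L q) = 1)
    (hab : ∀ L, 1 ≤ L → ∀ q ≤ h, dist a (b L q) = L) :
    ∃ req : (Fin (h + 1) → M) → M,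
      (∃ S, ∀ n, IsWFA (Input.plain fun t => req (S t)) (fun _ => a) S n) ∧
      ∀ S, (∀ n, IsWFA (Input.plain fun t => req (S t)) (fun _ => a) S n) →
        ∃ n, c * opt (Input.plain fun t => req (S t)) (fun _ : Fin h => a) n + B < mov S n := by
  obtain ⟨μ, L, hL, hfin⟩ := arith h c B hc
  have hL1 : 1 ≤ L := by
    have : (0 : ℝ) ≤ μ + (h + 1) := by positivity
    linarith
  refine ⟨fun X => b L (idx h (b L) X), ?_, fun S hS => ?_⟩
  · exact exists_run (m := h + 1) (Nat.succ_pos h) (fun _ => a) (fun X => b L (idx h (b L) X))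
  · beta_reduce at hS ⊢
    obtain ⟨n, h2, h3⟩ := lower hh a (b L) L μ hL (hbb L) (hab L hL1) S hS
    have h4 : 0 ≤ opt (Input.plain fun t => b L (idx h (b L) (S t))) (fun _ : Fin h => a) n :=
      le_opt hh fun C _ => add_nonneg (mov_nonneg C n) (pen_nonneg C n)
    exact ⟨n, hfin _ _ h4 h2 h3⟩

theorem upper_succ {h : ℕ} (hh : 0 < h) (A : Fin (h + 1) → M) (e : Fin h ↪ Fin (h + 1)) :
    ∃ B : ℝ, ∀ (r : ℕ → M) (S : ℕ → Fin (h + 1) → M) (n : ℕ), IsWFA (Input.plain r) A S n →
      mov S n ≤ ((h : ℝ) + 1) ^ 2 / (h + 2) * opt (Input.plain r) (A ∘ e) n + B := by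
  refine ⟨((h + 1) * clique (A ∘ e) + clique A) / (h + 2), fun r S n hS => ?_⟩
  have h1 := upper hh e A r S n hS
  have h2 := upper (Nat.succ_pos h) (Function.Embedding.refl _) A r S n hS
  change _ ≤ ((h + 1 : ℕ) + 1) * opt _ A n + clique A at h2
  push_cast at h2
  have h3 := mul_le_mul_of_nonneg_left h1 (show (0 : ℝ) ≤ h + 1 by positivity)
  rw [div_mul_eq_mul_div, ← add_div, le_div_iff₀ (by positivity)]
  linarith

end Pool.Agent.MP_ea4e37_lc.W47
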